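import Pool.Agent.Helper72.AI.Stmts

set_option autoImplicit false

/-! `S_caps` for MP_870acd_co. -/

namespace Pool.Agent.Helper29.AI

open AffInc MeasureTheory

lemma Bpt0 (u : ℝ) : Bpt 0 u = ((1 + u) / 2, (1 + u) / 2) := by
  unfold Bpt
  simp [Fin.sum_univ_three, S0]

lemma isCompact_Tri : IsCompact Tri := by
  rw [Tri_eq_hull]
  exact (Set.finite_range S0).isCompact_convexHull ℝ

/-- the corner triangle at `(1,1)` -/
def Corner (a b : ℝ) : Set (ℝ × ℝ) :=
  {p | p.1 ≤ 1 ∧ p.2 ≤ 1 ∧ b * (1 - p.1) + a * (1 - p.2) ≤ a * b}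

lemma Corner_eq (a b : ℝ) (ha : 0 < a) (hb : 0 < b) :
    Corner a b = T ![(1, 1), (1 - a, 1), (1, 1 - b)] '' Tri := by
  ext p
  constructor
  · rintro ⟨h1, h2, h3⟩
    refine ⟨((1 - p.1) / a, (1 - p.2) / b), ?_, ?_⟩
    · rw [Tri_eq]
      refine ⟨div_nonneg (by linarith) ha.le, div_nonneg (by linarith) hb.le, ?_⟩
      simp only
      rw [div_add_div _ _ ha.ne' hb.ne', div_le_one (by positivity)]
      linarith
    · rw [T_def]
      ext
      · simp
        field_simp
        ring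
      · simp
        field_simp
        ring
  · rintro ⟨q, hq, rfl⟩
    rw [Tri_eq] at hq
    obtain ⟨h1, h2, h3⟩ := hq
    rw [T_def]
    refine ⟨?_, ?_, ?_⟩
    · simp
      nlinarith
    · simp
      nlinarith
    · simp
      nlinarith [mul_pos ha hb]

lemma area_Corner (a b : ℝ) (ha : 0 < a) (hb : 0 < b) : area (Corner a b) = a * b / 2 := by
  rw [Corner_eq a b ha hb, area_T, area_Tri]
  have : det3 ![(1, 1), (1 - a, 1), (1, 1 - b)] = a * b := by
    simp [det3]
  rw [this, abs_of_pos (mul_pos ha hb)]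
  ring

lemma compact_Corner (a b : ℝ) (ha : 0 < a) (hb : 0 < b) : IsCompact (Corner a b) := by
  rw [Corner_eq a b ha hb]
  exact isCompact_Tri.image (T_continuous _)

lemma cap0 (G : Set (ℝ × ℝ)) (hG : Fig G) (hM : MaxTri G S0) :
    ∃ u : ℝ, 0 ≤ u ∧ u ≤ 1 ∧ Bpt 0 u ∈ G ∧ 2 * area (G ∩ {p | lam p 0 < 0}) ≤ u * (2 - u) := by
  have h00 : ((0 : ℝ), (0 : ℝ)) ∈ G := by simpa [S0] using hM.1 0
  have h10 : ((1 : ℝ), (0 : ℝ)) ∈ G := by simpa [S0] using hM.1 1
  have h01 : ((0 : ℝ), (1 : ℝ)) ∈ G := by simpa [S0] using hM.1 2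
  have hx : ∀ p ∈ G, p.1 ≤ 1 := by
    intro p hp
    have h1 := hM.2 ![(0, 0), p, (0, 1)]
      (by intro i; fin_cases i; exacts [h00, hp, h01])
    rw [det3_S0] at h1
    simpa [det3] using h1
  have hy : ∀ p ∈ G, p.2 ≤ 1 := by
    intro p hp
    have h1 := hM.2 ![(0, 0), (1, 0), p]
      (by intro i; fin_cases i; exacts [h00, h10, hp])
    rw [det3_S0] at h1
    simpa [det3] using h1
  let A : Set ℝ := Set.Icc (0 : ℝ) 1 ∩ (fun u : ℝ => ((1 + u) / 2, (1 + u) / 2)) ⁻¹' G
  have hAc : IsCompact A :=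
    isCompact_Icc.inter_right (hG.cpt.isClosed.preimage (by fun_prop))
  have hA0 : (0 : ℝ) ∈ A := by
    refine ⟨⟨le_rfl, zero_le_one⟩, ?_⟩
    have h1 := hG.cvx h10 h01 (a := 1 / 2) (b := 1 / 2) (by norm_num) (by norm_num) (by norm_num)
    simpa using h1
  obtain ⟨u, huA, humax⟩ := hAc.exists_isMaxOn ⟨0, hA0⟩ continuousOn_id
  have hmax : ∀ u' ∈ A, u' ≤ u := fun u' hu' => humax hu'
  obtain ⟨⟨hu0, hu1⟩, huG⟩ := huA
  refine ⟨u, hu0, hu1, by rw [Bpt0]; exact huG, ?_⟩
  -- the cap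
  have hcap : ∀ p ∈ G ∩ {p | lam p 0 < 0}, p.1 ≤ 1 ∧ p.2 ≤ 1 ∧ 1 < p.1 + p.2 := by
    rintro p ⟨hp, hp2⟩
    refine ⟨hx p hp, hy p hp, ?_⟩
    simp [lam] at hp2
    linarith
  have hsub : G ∩ {p | lam p 0 < 0} ⊆ Corner 1 1 := by
    intro p hp
    obtain ⟨h1, h2, h3⟩ := hcap p hp
    exact ⟨h1, h2, by linarith⟩
  have hkey : ∀ u' : ℝ, u < u' → u' < 1 →
      2 * area (G ∩ {p | lam p 0 < 0}) ≤ u' * (2 - u') := by
    intro u' h1 h2
    have hnot : ((1 + u') / 2, (1 + u') / 2) ∉ G := by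
      intro h
      exact absurd (hmax u' ⟨⟨by linarith, h2.le⟩, h⟩) (not_le.2 h1)
    obtain ⟨f, c', hf1, hf2⟩ := geometric_hahn_banach_closed_point hG.cvx hG.cpt.isClosed hnot
    set a := f (1, 0) with ha
    set b := f (0, 1) with hb
    have hf : ∀ p : ℝ × ℝ, f p = a * p.1 + b * p.2 := by
      intro p
      have h3 : p = p.1 • ((1 : ℝ), (0 : ℝ)) + p.2 • ((0 : ℝ), (1 : ℝ)) := by
        ext <;> simp
      conv_lhs => rw [h3]
      rw [map_add, map_smul, map_smul, smul_eq_mul, smul_eq_mul]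
      ring
    have hc' : 0 < c' := by
      have := hf1 _ h00
      rw [hf] at this
      simpa using this
    have hac : a < c' := hf1 _ h10
    have hbc : b < c' := hf1 _ h01
    rw [hf] at hf2
    simp only at hf2
    set c := a + b - c' with hc
    have hab : 0 < a + b := by
      by_contra hcon
      push Not at hcon
      nlinarith
    have hcpos : 0 < c := by nlinarith
    have hac2 : c < a := by linarith
    have hbc2 : c < b := by linarith
    have hapos : 0 < a := by linarith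
    have hbpos : 0 < b := by linarith
    have hcu : (a + b) * (1 - u') / 2 < c := by
      have : (a + b) * (1 - u') / 2 = a + b - (a * ((1 + u') / 2) + b * ((1 + u') / 2)) := by ring
      rw [this]
      linarith
    -- the small triangle
    have hmem : ∀ p : ℝ × ℝ, p ∈ Corner (c / a) (c / b) ↔
        p.1 ≤ 1 ∧ p.2 ≤ 1 ∧ a * (1 - p.1) + b * (1 - p.2) ≤ c := by
      intro p
      have h3 : (c / b * (1 - p.1) + c / a * (1 - p.2) ≤ c / a * (c / b)) ↔
          a * (1 - p.1) + b * (1 - p.2) ≤ c := by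
        have h4 : c / b * (1 - p.1) + c / a * (1 - p.2) =
            (c / (a * b)) * (a * (1 - p.1) + b * (1 - p.2)) := by
          field_simp
        have h5 : c / a * (c / b) = (c / (a * b)) * c := by
          field_simp
        rw [h4, h5]
        exact mul_le_mul_iff_right₀ (by positivity)
      unfold Corner
      rw [Set.mem_ofPred_eq, h3]
    have hpa : 0 < c / a := by positivity
    have hpb : 0 < c / b := by positivity
    have hdisj : Disjoint (G ∩ {p | lam p 0 < 0}) (Corner (c / a) (c / b)) := by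
      rw [Set.disjoint_left]
      intro p hp hp2
      rw [hmem] at hp2
      have h3 := hf1 p hp.1
      rw [hf] at h3
      linarith [hp2.2.2]
    have hsub2 : (G ∩ {p | lam p 0 < 0}) ∪ Corner (c / a) (c / b) ⊆ Corner 1 1 := by
      apply Set.union_subset hsub
      intro p hp
      rw [hmem] at hp
      obtain ⟨h3, h4, h5⟩ := hp
      refine ⟨h3, h4, ?_⟩
      have h6 : c * (1 - p.1) ≤ a * (1 - p.1) :=
        mul_le_mul_of_nonneg_right hac2.le (by linarith)
      have h7 : c * (1 - p.2) ≤ b * (1 - p.2) :=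
        mul_le_mul_of_nonneg_right hbc2.le (by linarith)
      have h8 : c * ((1 - p.1) + (1 - p.2)) ≤ c * 1 := by linarith
      have h9 := le_of_mul_le_mul_left h8 hcpos
      linarith
    have hfin : volume (G ∩ {p | lam p 0 < 0}) ≠ ⊤ :=
      (measure_mono Set.inter_subset_left |>.trans_lt hG.volume_lt_top).ne
    have hsum : area (G ∩ {p | lam p 0 < 0}) + area (Corner (c / a) (c / b)) ≤ 1 / 2 := by
      have h3 := area_mono hsub2 (compact_Corner 1 1 one_pos one_pos).measure_lt_top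
      rw [area_Corner 1 1 one_pos one_pos] at h3
      have h4 : area ((G ∩ {p | lam p 0 < 0}) ∪ Corner (c / a) (c / b)) =
          area (G ∩ {p | lam p 0 < 0}) + area (Corner (c / a) (c / b)) := by
        unfold area
        rw [measure_union hdisj (compact_Corner _ _ hpa hpb).measurableSet,
          ENNReal.toReal_add hfin (compact_Corner _ _ hpa hpb).measure_lt_top.ne]
      rw [h4] at h3
      linarith
    rw [area_Corner _ _ hpa hpb] at hsum
    have hprod : (1 - u') ^ 2 ≤ c / a * (c / b) := by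
      rw [div_mul_div_comm, le_div_iff₀ (by positivity)]
      have h3 : a * b ≤ ((a + b) / 2) ^ 2 := by nlinarith [sq_nonneg (a - b)]
      have h4 : (1 - u') ^ 2 * (a * b) ≤ (1 - u') ^ 2 * ((a + b) / 2) ^ 2 :=
        mul_le_mul_of_nonneg_left h3 (sq_nonneg _)
      have h5 : (1 - u') ^ 2 * ((a + b) / 2) ^ 2 = ((a + b) * (1 - u') / 2) ^ 2 := by ring
      have h6 : ((a + b) * (1 - u') / 2) ^ 2 ≤ c ^ 2 := by
        apply pow_le_pow_left₀ _ hcu.le
        have : 0 < 1 - u' := by linarith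
        positivity
      calc _ ≤ _ := h4
        _ = _ := h5
        _ ≤ _ := h6
        _ = _ := by ring
    nlinarith
  rcases eq_or_lt_of_le hu1 with h | h
  · rw [h]
    have h1 := area_mono hsub (compact_Corner 1 1 one_pos one_pos).measure_lt_top
    rw [area_Corner 1 1 one_pos one_pos] at h1
    linarith
  · have h1 : Filter.Tendsto (fun u' : ℝ => u' * (2 - u')) (nhdsWithin u (Set.Ioi u))
        (nhds (u * (2 - u))) := by
      have : Continuous (fun u' : ℝ => u' * (2 - u')) := by fun_prop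
      exact this.continuousWithinAt
    refine ge_of_tendsto h1 ?_
    filter_upwards [Ioo_mem_nhdsGT h] with u' hu'
    exact hkey u' hu'.1 hu'.2

/-- the cyclic rotation that sends `S0 i` to `S0 0` -/
def Rot (i : Fin 3) : Fin 3 → ℝ × ℝ := fun j => S0 (j - i)

lemma det3_Rot (i : Fin 3) : det3 (Rot i) = 1 := by
  fin_cases i <;> simp [det3, Rot, S0]

lemma T_Rot_S0 (i j : Fin 3) : T (Rot i) (S0 j) = S0 (j - i) := by
  fin_cases i <;> fin_cases j <;> (rw [T_def]; simp [Rot, S0])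

lemma lam_T_Rot (i : Fin 3) (p : ℝ × ℝ) : lam (T (Rot i) p) 0 = lam p i := by
  fin_cases i <;> (rw [T_def]; simp [Rot, S0, lam]) <;> ring

lemma T_Rot_Bpt (i : Fin 3) (u : ℝ) : T (Rot i) (Bpt i u) = Bpt 0 u := by
  rw [T_def]
  unfold Bpt
  fin_cases i <;> simp [Rot, S0, Fin.sum_univ_three] <;> ring

lemma cap (G : Set (ℝ × ℝ)) (hG : Fig G) (hM : MaxTri G S0) (i : Fin 3) :
    ∃ u : ℝ, 0 ≤ u ∧ u ≤ 1 ∧ Bpt i u ∈ G ∧ 2 * area (G ∩ {p | lam p i < 0}) ≤ u * (2 - u) := by
  have hd : det3 (Rot i) ≠ 0 := by rw [det3_Rot]; norm_num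
  have hM' : MaxTri (T (Rot i) '' G) S0 := by
    constructor
    · intro j
      refine ⟨S0 (j + i), hM.1 _, ?_⟩
      rw [T_Rot_S0]
      simp
    · intro Y hY
      choose Z hZ hZY using hY
      have h1 : Y = fun j => T (Rot i) (Z j) := funext fun j => (hZY j).symm
      rw [h1, det3_T, det3_Rot, one_mul]
      exact hM.2 Z hZ
  obtain ⟨u, h0, h1, h2, h3⟩ := cap0 _ (hG.image (Rot i) hd) hM'
  refine ⟨u, h0, h1, ?_, ?_⟩
  · obtain ⟨q, hq, hq2⟩ := h2
    rw [← T_Rot_Bpt i u] at hq2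
    rwa [← T_injective _ hd hq2]
  · have h4 : (T (Rot i) '' G) ∩ {p | lam p 0 < 0} = T (Rot i) '' (G ∩ {p | lam p i < 0}) := by
      ext q
      constructor
      · rintro ⟨⟨p, hp, rfl⟩, hq⟩
        refine ⟨p, ⟨hp, ?_⟩, rfl⟩
        rw [Set.mem_ofPred_eq, lam_T_Rot] at hq
        exact hq
      · rintro ⟨p, ⟨hp, hp2⟩, rfl⟩
        refine ⟨⟨p, hp, rfl⟩, ?_⟩
        rw [Set.mem_ofPred_eq, lam_T_Rot]
        exact hp2
    rw [h4, area_T, det3_Rot, abs_one, one_mul] at h3
    exact h3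

theorem pf_S_caps : AffInc.S_caps := by
  intro G hG hM
  choose u h0 h1 h2 h3 using cap G hG hM
  refine ⟨u, h0, h1, h2, ?_⟩
  have hfin : ∀ i, volume (G ∩ {p | lam p i < 0}) ≠ ⊤ := fun i =>
    (measure_mono Set.inter_subset_left |>.trans_lt hG.volume_lt_top).ne
  have hsub : G ⊆ Tri ∪ ⋃ i, (G ∩ {p | lam p i < 0}) := by
    intro p hp
    by_cases h : ∀ i, 0 ≤ lam p i
    · exact Or.inl h
    · push Not at h
      obtain ⟨i, hi⟩ := h
      exact Or.inr (Set.mem_iUnion.2 ⟨i, hp, hi⟩)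
  have hvol : volume G ≤ volume Tri + ∑ i, volume (G ∩ {p | lam p i < 0}) := by
    calc volume G ≤ volume (Tri ∪ ⋃ i, (G ∩ {p | lam p i < 0})) := measure_mono hsub
      _ ≤ volume Tri + volume (⋃ i, (G ∩ {p | lam p i < 0})) := measure_union_le _ _
      _ ≤ _ := by
        gcongr
        exact measure_iUnion_fintype_le _ _
  have harea : area G ≤ area Tri + ∑ i, area (G ∩ {p | lam p i < 0}) := by
    unfold area
    rw [← ENNReal.toReal_sum (fun i _ => hfin i), ← ENNReal.toReal_add isCompact_Tri.measure_lt_top.ne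
      (ENNReal.sum_ne_top.2 fun i _ => hfin i)]
    exact ENNReal.toReal_mono (ENNReal.add_ne_top.2 ⟨isCompact_Tri.measure_lt_top.ne,
      ENNReal.sum_ne_top.2 fun i _ => hfin i⟩) hvol
  rw [area_Tri] at harea
  have h4 : 2 * ∑ i, area (G ∩ {p | lam p i < 0}) ≤ ∑ i, u i * (2 - u i) := by
    rw [Finset.mul_sum]
    exact Finset.sum_le_sum fun i _ => h3 i
  linarith

end Pool.Agent.Helper29.AI
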