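import Pool.Agent.Helper72.AI.Stmts3
import Pool.Agent.Helper29.AI.S_caps

set_option autoImplicit false

/-! `E_ear` for MP_870acd_co. -/

namespace Pool.Agent.Helper29.AI

open AffInc MeasureTheory

/-- a subset of a triangle -/
lemma area_le_of_subset_T (S : Set (ℝ × ℝ)) (Z : Fin 3 → ℝ × ℝ) (h : S ⊆ T Z '' Tri) :
    area S ≤ |det3 Z| / 2 := by
  have h1 := area_mono h (isCompact_Tri.image (T_continuous _)).measure_lt_top
  rw [area_T, area_Tri] at h1
  linarith

theorem pf_E_ear : AffInc.E_ear := by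
  intro G p D1 D2 l y y' hG hδ hl hy0 hy1 hy0' hy1' hf hg
  set δ := cross D1 D2 with hδd
  let X : Fin 3 → ℝ × ℝ := ![p, p + l • D1, p + l • D2]
  have hX : det3 X = l ^ 2 * δ := by
    simp [X, det3, hδd, cross]
    ring
  have hXpos : 0 < det3 X := by rw [hX]; positivity
  have hTX : ∀ q : ℝ × ℝ, T X q = p + (l * q.1) • D1 + (l * q.2) • D2 := by
    intro q
    rw [T_def]
    ext <;> simp [X] <;> ring
  -- the ear in the new coordinates
  let S : Set (ℝ × ℝ) := {q | 0 ≤ q.2 ∧ q.2 ≤ q.1 ∧ (1 - y) * q.1 ≤ q.2 ∧ q.1 - 1 ≤ y' * (q.2 - 1) ∧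
    q.2 ≤ 1}
  have hsub : G ∩ {q | cross (D1 + D2) (q - p) < 0} ⊆ T X '' S := by
    rintro q ⟨hq, hq2⟩
    obtain ⟨⟨a, b⟩, rfl⟩ := (T_bijective X hXpos.ne').2 q
    refine ⟨(a, b), ?_, rfl⟩
    have h1 : cross (D1 + D2) (T X (a, b) - p) = l * δ * (b - a) := by
      rw [hTX]
      simp [cross, hδd]
      ring
    have h2 : cross (D1 + (1 - y) • D2) (T X (a, b) - p) = l * δ * (b - (1 - y) * a) := by
      rw [hTX]
      simp [cross, hδd]
      ring
    have h3 : cross (y' • D1 + D2) (T X (a, b) - p - l • (D1 + D2)) =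
        l * δ * (y' * (b - 1) - (a - 1)) := by
      rw [hTX]
      simp [cross, hδd]
      ring
    have hlδ : 0 < l * δ := mul_pos hl hδ
    have h4 : b < a := by
      rw [Set.mem_ofPred_eq, h1] at hq2
      by_contra hcon
      push Not at hcon
      have := mul_nonneg hlδ.le (sub_nonneg.2 hcon)
      linarith
    have h5 : (1 - y) * a ≤ b := by
      have := hf _ hq
      rw [h2] at this
      have := nonneg_of_mul_nonneg_right this hlδ
      linarith
    have h6 : a - 1 ≤ y' * (b - 1) := by
      have := hg _ hq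
      rw [h3] at this
      have := nonneg_of_mul_nonneg_right this hlδ
      linarith
    have ha : 0 ≤ a := by
      by_contra hcon
      push Not at hcon
      nlinarith
    have hb : 0 ≤ b := le_trans (mul_nonneg (by linarith) ha) h5
    have hb1 : b ≤ 1 := by
      by_contra hcon
      push Not at hcon
      nlinarith
    exact ⟨hb, h4.le, h5, h6, hb1⟩
  have hS1 : S ⊆ T ![(0, 0), (1, 1 - y), (1, 1)] '' Tri := by
    rintro ⟨a, b⟩ ⟨h1, h2, h3, h4, h5⟩
    simp only at h1 h2 h3 h4 h5
    have ha1 : a ≤ 1 := by nlinarith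
    rcases eq_or_lt_of_le hy0 with h | h
    · refine ⟨(a, 0), ?_, ?_⟩
      · rw [Tri_eq]
        exact ⟨by simp only; linarith, le_rfl, by simp only; linarith⟩
      · rw [T_def]
        rw [← h] at h3 ⊢
        ext
        · simp
        · simp
          linarith
    · refine ⟨((a - b) / y, (b - (1 - y) * a) / y), ?_, ?_⟩
      · rw [Tri_eq]
        refine ⟨div_nonneg (by linarith) hy0, div_nonneg (by linarith) hy0, ?_⟩
        simp only
        rw [← add_div, div_le_one h]
        nlinarith
      · rw [T_def]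
        ext
        · simp
          field_simp
          ring
        · simp
          field_simp
          ring
  have hS2 : S ⊆ T ![(0, 0), (1 - y', 0), (1, 1)] '' Tri := by
    rintro ⟨a, b⟩ ⟨h1, h2, h3, h4, h5⟩
    simp only at h1 h2 h3 h4 h5
    rcases eq_or_lt_of_le hy1' with h | h
    · refine ⟨(0, b), ?_, ?_⟩
      · rw [Tri_eq]
        exact ⟨le_rfl, h1, by simp only; linarith⟩
      · rw [T_def]
        rw [h] at h4 ⊢
        ext
        · simp
          linarith
        · simp
    · have h6 : 0 < 1 - y' := by linarith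
      refine ⟨((a - b) / (1 - y'), b), ?_, ?_⟩
      · rw [Tri_eq]
        refine ⟨div_nonneg (by linarith) h6.le, h1, ?_⟩
        simp only
        have : (a - b) / (1 - y') ≤ 1 - b := by
          rw [div_le_iff₀ h6]
          nlinarith
        linarith
      · rw [T_def]
        ext
        · simp
          field_simp
          ring
        · simp
  have hcomp : ∀ Z : Fin 3 → ℝ × ℝ, S ⊆ T Z '' Tri →
      area (G ∩ {q | cross (D1 + D2) (q - p) < 0}) ≤ l ^ 2 * δ / 2 * |det3 Z| := by
    intro Z hZ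
    have h1 : G ∩ {q | cross (D1 + D2) (q - p) < 0} ⊆ T (fun i => T X (Z i)) '' Tri := by
      refine hsub.trans ?_
      rintro _ ⟨q, hq, rfl⟩
      obtain ⟨r, hr, rfl⟩ := hZ hq
      exact ⟨r, hr, (T_comp X Z r).symm⟩
    have h2 := area_le_of_subset_T _ _ h1
    rw [det3_T, hX, abs_mul, abs_of_pos (by positivity : 0 < l ^ 2 * δ)] at h2
    linarith
  have h1 := hcomp _ hS1
  have h2 := hcomp _ hS2
  have h3 : det3 ![(0, 0), (1, 1 - y), (1, 1)] = y := by simp [det3]
  have h4 : det3 ![(0, 0), (1 - y', 0), (1, 1)] = 1 - y' := by simp [det3]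
  rw [h3, abs_of_nonneg hy0] at h1
  rw [h4, abs_of_nonneg (by linarith)] at h2
  rcases min_choice y (1 - y') with h | h <;> rw [h]
  · exact h1
  · exact h2

end Pool.Agent.Helper29.AI
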